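import Pool.Agent.Y671.GL.Spec
import Pool.Agent.W261.SD.SSq
import Pool.Agent.W655.SD.SC2

set_option autoImplicit false

/-!
# Job 98 (helper285): mean square on a ray by mean squares on an area
-/

namespace Pool.Agent.Y285.GL

open Complex Filter Topology MeasureTheory Set
open Pool.Agent.H24R2.DZ (ray)
open Pool.Agent.W655.SD (dbl_le_mono)

theorem cont_int (F : ℝ → ℝ → ℝ) (hF : Continuous (Function.uncurry F)) (a b c d : ℝ) :
    ∫ x in a..b, ∫ y in c..d, F x y = ∫ y in c..d, ∫ x in a..b, F x y := by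
  apply intervalIntegral_intervalIntegral_swap
  have h1 : IntegrableOn (Function.uncurry F) (uIcc a b ×ˢ uIcc c d) :=
    hF.continuousOn.integrableOn_compact (isCompact_uIcc.prod isCompact_uIcc)
  exact h1.mono_set (prod_mono uIoc_subset_uIcc uIoc_subset_uIcc)

theorem shift (G : ℝ → ℝ → ℝ) (v y ρ : ℝ) :
    ∫ u in (y - ρ)..(y + ρ), G v u = ∫ w in (-ρ)..ρ, G v (w + y) := by
  rw [intervalIntegral.integral_comp_add_right (fun u => G v u)]
  congr 1 <;> ring

/-- the Fubini argument -/
theorem area (G : ℝ → ℝ → ℝ) (hG : Continuous (Function.uncurry G)) (h0 : ∀ v u, 0 ≤ G v u)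
    (a b ρ c X U1 U2 : ℝ) (hab : a ≤ b) (hρ : 0 ≤ ρ) (hc : 0 < c) (hX : 0 ≤ X)
    (h1 : U1 ≤ X * c - ρ) (h2 : 2 * X * c + ρ ≤ U2) :
    ∫ x in X..(2 * X), ∫ v in a..b, ∫ w in (-ρ)..ρ, G v (w + x * c) ≤
      2 * ρ / c * ∫ v in a..b, ∫ u in U1..U2, G v u := by
  have hF3 : Continuous (fun p : (ℝ × ℝ) × ℝ => G p.1.2 (p.2 + p.1.1 * c)) :=
    hG.comp (by fun_prop : Continuous (fun p : (ℝ × ℝ) × ℝ => (p.1.2, p.2 + p.1.1 * c)))
  have hF1 : Continuous (Function.uncurry fun x v => ∫ w in (-ρ)..ρ, G v (w + x * c)) := by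
    apply intervalIntegral.continuous_parametric_intervalIntegral_of_continuous'
      (f := fun (p : ℝ × ℝ) w => G p.2 (w + p.1 * c))
    exact hF3
  rw [cont_int _ hF1]
  have hint : ∀ v, Continuous fun u => G v u := fun v =>
    hG.comp (by fun_prop : Continuous (fun u : ℝ => (v, u)))
  have key : ∀ v, ∫ x in X..(2 * X), ∫ w in (-ρ)..ρ, G v (w + x * c) ≤
      2 * ρ / c * ∫ u in U1..U2, G v u := by
    intro v
    have hF2 : Continuous (Function.uncurry fun x w : ℝ => G v (w + x * c)) :=
      (hint v).comp (by fun_prop : Continuous (fun p : ℝ × ℝ => p.2 + p.1 * c))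
    rw [cont_int _ hF2]
    have hcw : Continuous fun w => ∫ x in X..(2 * X), G v (w + x * c) := by
      apply intervalIntegral.continuous_parametric_intervalIntegral_of_continuous'
        (f := fun (w : ℝ) x => G v (w + x * c))
      exact (hint v).comp (by fun_prop : Continuous (fun p : ℝ × ℝ => p.1 + p.2 * c))
    have hle : ∫ w in (-ρ)..ρ, ∫ x in X..(2 * X), G v (w + x * c) ≤
        ∫ _w in (-ρ)..ρ, c⁻¹ * ∫ u in U1..U2, G v u := by
      apply intervalIntegral.integral_mono_on (by linarith) (hcw.intervalIntegrable _ _)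
        intervalIntegrable_const
      intro w hw
      have e : ∀ x : ℝ, w + x * c = c * x + w := fun x => by ring
      simp only [e]
      rw [intervalIntegral.integral_comp_mul_add (fun u => G v u) hc.ne', smul_eq_mul]
      apply mul_le_mul_of_nonneg_left _ (by positivity)
      apply intervalIntegral.integral_mono_interval
      · linarith [hw.1]
      · nlinarith [mul_nonneg hX hc.le]
      · linarith [hw.2]
      · exact Eventually.of_forall fun u => h0 v u
      · exact (hint v).intervalIntegrable _ _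
    refine hle.trans (le_of_eq ?_)
    rw [intervalIntegral.integral_const, smul_eq_mul]
    field_simp
    ring
  have hL : Continuous fun v => ∫ x in X..(2 * X), ∫ w in (-ρ)..ρ, G v (w + x * c) := by
    apply intervalIntegral.continuous_parametric_intervalIntegral_of_continuous'
      (f := fun (v : ℝ) x => ∫ w in (-ρ)..ρ, G v (w + x * c))
    apply intervalIntegral.continuous_parametric_intervalIntegral_of_continuous'
      (f := fun (p : ℝ × ℝ) w => G p.1 (w + p.2 * c))
    exact hG.comp (by fun_prop : Continuous (fun p : (ℝ × ℝ) × ℝ => (p.1.1, p.2 + p.1.2 * c)))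
  have hR : Continuous fun v => ∫ u in U1..U2, G v u :=
    intervalIntegral.continuous_parametric_intervalIntegral_of_continuous' hG _ _
  calc ∫ v in a..b, ∫ x in X..(2 * X), ∫ w in (-ρ)..ρ, G v (w + x * c)
      ≤ ∫ v in a..b, 2 * ρ / c * ∫ u in U1..U2, G v u := by
        apply intervalIntegral.integral_mono_on hab (hL.intervalIntegrable _ _)
          ((continuous_const.mul hR).intervalIntegrable _ _)
        intro v _
        exact key v
    _ = _ := by rw [intervalIntegral.integral_const_mul]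

theorem ray_eq (δ x : ℝ) : ray δ x = ((x * Real.sin δ : ℝ) : ℂ) + ((x * Real.cos δ : ℝ) : ℂ) * I := by
  unfold ray
  rw [mul_comm I, Complex.exp_mul_I, ← Complex.ofReal_cos, ← Complex.ofReal_sin,
    Real.cos_pi_div_two_sub, Real.sin_pi_div_two_sub]
  push_cast
  ring

theorem rta : Pool.Agent.Y671.GL.S_RTA := by
  obtain ⟨C, hC, hsq⟩ := Pool.Agent.W261.SD.ssq
  refine ⟨8 * C, by positivity, ?_⟩
  intro g δ X hδ hδ1 hX hg
  have hs1 : Real.sin δ < δ := Real.sin_lt hδ
  have hs2 : δ * (399 / 400) ≤ Real.sin δ := by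
    have h1 := Real.sin_gt_sub_cube hδ
    nlinarith [mul_pos hδ hδ, mul_nonneg hδ.le (by nlinarith : (0:ℝ) ≤ 1 / 100 - δ ^ 2)]
  have hc1 : Real.cos δ ≤ 1 := Real.cos_le_one δ
  have hc2 : 199 / 200 ≤ Real.cos δ := by
    have := Real.one_sub_sq_div_two_le_cos (x := δ)
    nlinarith
  set s := Real.sin δ with hs
  set c := Real.cos δ with hc
  have hc0 : 0 < c := by linarith
  have hs0 : 0 < s := by nlinarith
  have hδX : 0 < δ * X := mul_pos hδ hX
  set ρ : ℝ := δ * X / 2 with hρ
  have hρ0 : 0 < ρ := by positivity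
  set a : ℝ := δ * X / 4 with ha
  set b : ℝ := 4 * δ * X with hb
  have hab : a ≤ b := by
    rw [ha, hb]
    nlinarith
  have hUU : X / 4 ≤ 4 * X := by linarith
  set h : ℝ → ℝ → ℝ := fun v u => ‖g (v + u * I)‖ ^ 2 with hh
  have hcont : ∀ S : Set (ℝ × ℝ), (∀ p ∈ S, 0 < p.1) → ContinuousOn (fun p : ℝ × ℝ => h p.1 p.2) S := by
    intro S hS
    rw [hh]
    apply ContinuousOn.pow
    apply ContinuousOn.norm
    intro p hp
    have h1 : ContinuousAt g ((p.1 : ℂ) + p.2 * I) := (hg _ (by simpa using hS p hp)).continuousAt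
    have h2 : ContinuousAt (fun p : ℝ × ℝ => (p.1 : ℂ) + p.2 * I) p := by fun_prop
    exact (ContinuousAt.comp (f := fun p : ℝ × ℝ => (p.1 : ℂ) + p.2 * I) h1 h2).continuousWithinAt
  set G : ℝ → ℝ → ℝ := fun v u => h (projIcc a b hab v) (projIcc (X / 4) (4 * X) hUU u) with hGd
  have ha0 : 0 < a := by positivity
  have hGc : Continuous (Function.uncurry G) := by
    have h1 : Continuous (fun p : ℝ × ℝ => ((projIcc a b hab p.1 : ℝ),
        (projIcc (X / 4) (4 * X) hUU p.2 : ℝ))) :=
      (continuous_subtype_val.comp (continuous_projIcc.comp continuous_fst)).prodMk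
        (continuous_subtype_val.comp (continuous_projIcc.comp continuous_snd))
    have h2 := hcont (Icc a b ×ˢ univ) (fun p hp => lt_of_lt_of_le ha0 hp.1.1)
    exact h2.comp_continuous h1 (fun p => ⟨(projIcc a b hab p.1).2, mem_univ _⟩)
  have hG0 : ∀ v u, 0 ≤ G v u := fun v u => by
    simp only [hGd, hh]
    positivity
  have hGh : ∀ v ∈ Icc a b, ∀ u ∈ Icc (X / 4) (4 * X), G v u = h v u := by
    intro v hv u hu
    simp only [hGd, projIcc_of_mem hab hv, projIcc_of_mem hUU hu]
  -- the area integral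
  have eA : ∫ v in (δ * X / 4)..(4 * δ * X), ∫ u in (X / 4)..(4 * X), ‖g (v + u * I)‖ ^ 2 =
      ∫ v in a..b, ∫ u in (X / 4)..(4 * X), G v u := by
    refine intervalIntegral.integral_congr fun v hv => ?_
    rw [uIcc_of_le hab] at hv
    refine intervalIntegral.integral_congr fun u hu => ?_
    rw [uIcc_of_le hUU] at hu
    exact (hGh v hv u hu).symm
  rw [eA]
  -- pointwise
  have hpt : ∀ x ∈ Icc X (2 * X), ‖g (ray δ x)‖ ^ 2 ≤
      C / ρ ^ 2 * ∫ v in a..b, ∫ w in (-ρ)..ρ, G v (w + x * c) := by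
    intro x hx
    have hx0 : 0 < x := lt_of_lt_of_le hX hx.1
    have b1 : X * s ≤ x * s := mul_le_mul_of_nonneg_right hx.1 hs0.le
    have b2 : x * s ≤ 2 * X * s := mul_le_mul_of_nonneg_right hx.2 hs0.le
    have b3 : X * c ≤ x * c := mul_le_mul_of_nonneg_right hx.1 hc0.le
    have b4 : x * c ≤ 2 * X * c := mul_le_mul_of_nonneg_right hx.2 hc0.le
    have b5 : X * (δ * (399 / 400)) ≤ X * s := mul_le_mul_of_nonneg_left hs2 hX.le
    have b6 : X * s ≤ X * δ := mul_le_mul_of_nonneg_left hs1.le hX.le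
    have b7 : X * (199 / 200) ≤ X * c := mul_le_mul_of_nonneg_left hc2 hX.le
    have b8 : X * c ≤ X * 1 := mul_le_mul_of_nonneg_left hc1 hX.le
    have b9 : δ * X ≤ 1 / 10 * X := mul_le_mul_of_nonneg_right hδ1 hX.le
    have hlo : a ≤ x * s - ρ := by rw [ha, hρ]; linarith
    have hhi : x * s + ρ ≤ b := by rw [hb, hρ]; linarith
    have hlo' : X / 4 ≤ x * c - ρ := by rw [hρ]; linarith
    have hhi' : x * c + ρ ≤ 4 * X := by rw [hρ]; linarith
    have h1 := hsq g (x * s) (x * c) ρ hρ0 (fun z hz1 _ => hg z (by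
      rw [abs_le] at hz1
      linarith [hz1.1]))
    rw [ray_eq]
    refine h1.trans (mul_le_mul_of_nonneg_left ?_ (by positivity))
    have h2 : ∀ v, ∫ w in (-ρ)..ρ, G v (w + x * c) = ∫ u in (x * c - ρ)..(x * c + ρ), G v u :=
      fun v => (shift G v (x * c) ρ).symm
    simp only [h2]
    apply dbl_le_mono h G hlo (by linarith) hhi le_rfl (by linarith) le_rfl
    · exact hcont _ (fun p hp => by
        have := hp.1.1
        linarith)
    · exact hGc.continuousOn
    · intro v hv u hu
      rw [hGh v ⟨hlo.trans hv.1, hv.2.trans hhi⟩ u ⟨hlo'.trans hu.1, hu.2.trans hhi'⟩]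
    · intro v _ u _
      exact hG0 v u
  have hcI : Continuous fun x => C / ρ ^ 2 * ∫ v in a..b, ∫ w in (-ρ)..ρ, G v (w + x * c) := by
    apply continuous_const.mul
    apply intervalIntegral.continuous_parametric_intervalIntegral_of_continuous'
      (f := fun (x : ℝ) v => ∫ w in (-ρ)..ρ, G v (w + x * c))
    apply intervalIntegral.continuous_parametric_intervalIntegral_of_continuous'
      (f := fun (p : ℝ × ℝ) w => G p.2 (w + p.1 * c))
    exact hGc.comp (by fun_prop : Continuous (fun p : (ℝ × ℝ) × ℝ => (p.1.2, p.2 + p.1.1 * c)))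
  have hcL : ContinuousOn (fun x => ‖g (ray δ x)‖ ^ 2) (uIcc X (2 * X)) := by
    rw [uIcc_of_le (by linarith)]
    apply ContinuousOn.pow
    apply ContinuousOn.norm
    intro x hx
    have hx0 : 0 < x := lt_of_lt_of_le hX hx.1
    have hre : 0 < (ray δ x).re := by
      rw [ray_eq]
      simp only [Complex.add_re, Complex.ofReal_re, Complex.mul_re, Complex.I_re, mul_zero,
        Complex.ofReal_im, Complex.I_im, mul_one, sub_self, add_zero]
      exact mul_pos hx0 hs0
    have h1 : ContinuousAt g (ray δ x) := (hg _ hre).continuousAt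
    have h2 : ContinuousAt (fun x : ℝ => ray δ x) x := by
      unfold ray
      fun_prop
    exact (ContinuousAt.comp (f := fun x : ℝ => ray δ x) h1 h2).continuousWithinAt
  calc ∫ x in X..(2 * X), ‖g (ray δ x)‖ ^ 2
      ≤ ∫ x in X..(2 * X), C / ρ ^ 2 * ∫ v in a..b, ∫ w in (-ρ)..ρ, G v (w + x * c) :=
        intervalIntegral.integral_mono_on (by linarith) hcL.intervalIntegrable
          (hcI.intervalIntegrable _ _) hpt
    _ = C / ρ ^ 2 * ∫ x in X..(2 * X), ∫ v in a..b, ∫ w in (-ρ)..ρ, G v (w + x * c) := by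
        rw [intervalIntegral.integral_const_mul]
    _ ≤ C / ρ ^ 2 * (2 * ρ / c * ∫ v in a..b, ∫ u in (X / 4)..(4 * X), G v u) := by
        apply mul_le_mul_of_nonneg_left _ (by positivity)
        apply area G hGc hG0 a b ρ c X (X / 4) (4 * X) hab hρ0.le hc0 hX.le
        · have b7 : X * (199 / 200) ≤ X * c := mul_le_mul_of_nonneg_left hc2 hX.le
          have b9 : δ * X ≤ 1 / 10 * X := mul_le_mul_of_nonneg_right hδ1 hX.le
          rw [hρ]; linarith
        · have b8 : X * c ≤ X * 1 := mul_le_mul_of_nonneg_left hc1 hX.le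
          have b9 : δ * X ≤ 1 / 10 * X := mul_le_mul_of_nonneg_right hδ1 hX.le
          rw [hρ]; linarith
    _ ≤ 8 * C / (δ * X) * ∫ v in a..b, ∫ u in (X / 4)..(4 * X), G v u := by
        rw [← mul_assoc]
        apply mul_le_mul_of_nonneg_right
        · have e : C / ρ ^ 2 * (2 * ρ / c) = 4 * C / (δ * X) * (1 / c) := by
            rw [hρ]
            field_simp
            ring
          rw [e]
          have h1c : 1 / c ≤ 2 := by
            rw [div_le_iff₀ hc0]
            linarith
          calc 4 * C / (δ * X) * (1 / c) ≤ 4 * C / (δ * X) * 2 :=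
                mul_le_mul_of_nonneg_left h1c (by positivity)
            _ = 8 * C / (δ * X) := by ring
        · apply intervalIntegral.integral_nonneg hab
          intro v _
          apply intervalIntegral.integral_nonneg hUU
          intro u _
          exact hG0 v u

end Pool.Agent.Y285.GL
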